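import Pool.Agent.Helper28.M3.Rows

/-!
# Part H2 of the sharp Mahler inequality in `ℝ³`: the inequality between the `ε`
-/

set_option autoImplicit false

namespace Pool.Agent.Helper28.M3

lemma hv (d a : ℝ) (hd2 : 2/3 ≤ d) (hd1 : d < 1) (h4 : d / 4 ≤ a) (h2 : a ≤ d / 2) :
    0 ≤ 80 * (1 - a)^2 * ((18/5 - 12/5 * d - 1/2 * d^2) * (4 - d) - 16 * (1 - d)) +
      40 * (1 - a)^2 * (4 - d) * (d - a) * d - (d - a) * (19 * d + 14 * a) * (4 - d) := by
  rcases le_total (d - 1/2) a with h | h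
  · exact v1 d a (3 * d - 6 * a) (6 * a - 6 * d + 3) (3 * d - 2) (by linarith) (by linarith)
      (by linarith) (by ring) (by ring) (by ring)
  · exact v2 d a (3 * (1 - d)) (4 * d - 2 - 4 * a) (4 * a - d) (by linarith) (by linarith)
      (by linarith) (by ring) (by ring) (by ring)

lemma keyA (d : ℝ) (hd2 : 2/3 ≤ d) (hd1 : d < 1) :
    16 * (1 - d) / (4 - d) + 13/20 * (d^2 / (2 - d)^2) ≤ 18/5 - 12/5 * d - 1/2 * d^2 := by
  have h4 : 0 < 4 - d := by linarith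
  have h2d : 0 < 2 - d := by linarith
  have h2d2 : 0 < (2 - d)^2 := by positivity
  have hu := u1 d (3 - 3 * d) (3 * d - 2) (by linarith) (by linarith) (by ring) (by ring)
  have : 16 * (1 - d) / (4 - d) + 13/20 * (d^2 / (2 - d)^2) =
      (16 * (1 - d) * (2 - d)^2 + 13/20 * d^2 * (4 - d)) / ((4 - d) * (2 - d)^2) := by
    field_simp
  rw [this, div_le_iff₀ (by positivity)]
  linarith

lemma keyB (d a : ℝ) (hd2 : 2/3 ≤ d) (hd1 : d < 1) (h4 : d / 4 ≤ a) (h2 : a ≤ d / 2) :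
    16 * (1 - d) / (4 - d) + (d - a) * (19 * d + 14 * a) / (80 * (1 - a)^2) ≤
      18/5 - 12/5 * d - 1/2 * d^2 + (d - a) * d / 2 := by
  have h4' : 0 < 4 - d := by linarith
  have ha1 : 0 < 1 - a := by linarith
  have h := hv d a hd2 hd1 h4 h2
  have : 16 * (1 - d) / (4 - d) + (d - a) * (19 * d + 14 * a) / (80 * (1 - a)^2) =
      (16 * (1 - d) * (80 * (1 - a)^2) + (d - a) * (19 * d + 14 * a) * (4 - d)) /
        ((4 - d) * (80 * (1 - a)^2)) := by
    field_simp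
  rw [this, div_le_iff₀ (by positivity)]
  linarith

/-- the case `a ≥ d / 2` -/
lemma finA (a y f d : ℝ) (ha0 : 0 ≤ a) (hy0 : 0 ≤ y) (hf0 : 0 ≤ f) (hyd : y = d - a)
    (hd2 : 2/3 ≤ d) (hd1 : d < 1) (hx : d / 2 ≤ a) (ha1 : 0 < 1 - a) :
    16 * (1 - d) / (4 - d) ≤ 18/5 - 12/5 * d - 1/2 * d^2 + a * y + f -
      (13/20 * y^2 - 33/40 * f) / (1 - a)^2 := by
  have h2d : 0 < 2 - d := by linarith
  have hr : y / (1 - a) ≤ d / (2 - d) := by
    rw [div_le_div_iff₀ ha1 h2d, hyd]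
    nlinarith [mul_nonneg (by linarith : 0 ≤ 1 - d) (by linarith : 0 ≤ 2 * a - d)]
  have hr2 : y^2 / (1 - a)^2 ≤ d^2 / (2 - d)^2 := by
    rw [← div_pow, ← div_pow]
    exact pow_le_pow_left₀ (by positivity) hr 2
  have hq : (13/20 * y^2 - 33/40 * f) / (1 - a)^2 ≤ 13/20 * (d^2 / (2 - d)^2) := by
    have h1 : (13/20 * y^2 - 33/40 * f) / (1 - a)^2 =
        13/20 * (y^2 / (1 - a)^2) - 33/40 * f / (1 - a)^2 := by ring
    have h2 : 0 ≤ 33/40 * f / (1 - a)^2 := by positivity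
    rw [h1]
    linarith
  have h1 : 0 ≤ a * y := by positivity
  have h2 := keyA d hd2 hd1
  linarith

/-- the case `a ≤ d / 2` -/
lemma finB (a y f d : ℝ) (hyd : y = d - a) (hf2 : y * (y - a) / 2 ≤ f)
    (hd2 : 2/3 ≤ d) (hd1 : d < 1) (h4 : d / 4 ≤ a) (hx : a ≤ d / 2) (ha1 : 0 < 1 - a) :
    16 * (1 - d) / (4 - d) ≤ 18/5 - 12/5 * d - 1/2 * d^2 + a * y + f -
      (13/20 * y^2 - 33/40 * f) / (1 - a)^2 := by
  have hsq : 0 < (1 - a)^2 := by positivity
  have hq : (13/20 * y^2 - 33/40 * f) / (1 - a)^2 ≤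
      (d - a) * (19 * d + 14 * a) / (80 * (1 - a)^2) := by
    rw [div_le_div_iff₀ hsq (by positivity)]
    have h1 : 13/20 * y^2 - 33/40 * f ≤ (d - a) * (19 * d + 14 * a) / 80 := by
      have hd : d = a + y := by linarith
      rw [hd]
      have : (a + y - a) * (19 * (a + y) + 14 * a) / 80 =
        13/20 * y^2 - 33/40 * (y * (y - a) / 2) := by ring
      rw [this]
      linarith
    calc _ ≤ ((d - a) * (19 * d + 14 * a) / 80) * (80 * (1 - a)^2) :=
          mul_le_mul_of_nonneg_right h1 (by positivity)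
      _ = _ := by ring
  have h2 := keyB d a hd2 hd1 h4 hx
  have h3 : a * y + y * (y - a) / 2 = (d - a) * d / 2 := by
    rw [hyd]; ring
  linarith

/-- the final inequality between the `ε` -/
lemma final (a b c e d : ℝ) (hab : b ≤ a) (hbc : c ≤ b) (hce : e ≤ c) (he : 0 ≤ e)
    (hs : a + b + c + e = d) (hd1 : d < 1) (hd2 : 2/3 ≤ d) :
    16 * (1 - d) / (4 - d) ≤ 18/5 - 2/5 * d - 1/2 * (a^2 + b^2 + c^2 + e^2) - 2 * d -
      (13/20 * b^2 + 9/8 * (c^2 + e^2)) / (1 - a)^2 := by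
  have ha1 : 0 < 1 - a := by linarith
  have hsq : 0 < (1 - a)^2 := by positivity
  have hb0 : 0 ≤ b := by linarith
  have hc0 : 0 ≤ c := by linarith
  have ha0 : 0 ≤ a := by linarith
  obtain ⟨y, hy⟩ : ∃ y, y = b + c + e := ⟨_, rfl⟩
  obtain ⟨f, hf⟩ : ∃ f, f = b * c + b * e + c * e := ⟨_, rfl⟩
  have hf0 : 0 ≤ f := by rw [hf]; positivity
  have hyd : y = d - a := by linarith
  have hy0 : 0 ≤ y := by rw [hy]; positivity
  have h2 : b^2 + c^2 + e^2 = y^2 - 2 * f := by rw [hy, hf]; ring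
  have hnum : 13/20 * b^2 + 9/8 * (c^2 + e^2) ≤ 13/20 * y^2 - 33/40 * f := by
    have h1 : c^2 + e^2 ≤ f := by
      rw [hf]
      nlinarith [mul_nonneg hc0 (by linarith : 0 ≤ b - c), mul_nonneg he (by linarith : 0 ≤ c - e),
        mul_nonneg hb0 he]
    linarith
  have hquot : (13/20 * b^2 + 9/8 * (c^2 + e^2)) / (1 - a)^2 ≤
      (13/20 * y^2 - 33/40 * f) / (1 - a)^2 := div_le_div_of_nonneg_right hnum hsq.le
  have hsum : a^2 + b^2 + c^2 + e^2 = d^2 - 2 * (a * y + f) := by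
    rw [← hs, hy, hf]; ring
  have hh : 16 * (1 - d) / (4 - d) ≤ 18/5 - 12/5 * d - 1/2 * d^2 + a * y + f -
      (13/20 * y^2 - 33/40 * f) / (1 - a)^2 := by
    rcases le_total (d / 2) a with hx | hx
    · exact finA a y f d ha0 hy0 hf0 hyd hd2 hd1 hx ha1
    · refine finB a y f d hyd ?_ hd2 hd1 (by linarith) hx ha1
      have h3 : b^2 + c^2 + e^2 ≤ a * y := by
        rw [hy]
        nlinarith [mul_nonneg hb0 (by linarith : 0 ≤ a - b),
          mul_nonneg hc0 (by linarith : 0 ≤ a - c), mul_nonneg he (by linarith : 0 ≤ a - e)]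
      linarith
  rw [hsum]
  linarith

end Pool.Agent.Helper28.M3
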