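import Pool.Agent.Helper28.M3.Final
import Pool.Agent.Helper73.M3.Spec

/-!
# Part H2 of the sharp Mahler inequality in `ℝ³`
-/

set_option autoImplicit false

namespace Pool.Agent.Helper28.M3

open Helper73.M3

variable {ε D E : Fin 4 → ℝ} {B : Fin 4 → Fin 4 → ℝ} {δ : ℝ}

lemma sum4 (h : Data ε D E B δ) : ε 0 + ε 1 + ε 2 + ε 3 = δ := by
  have := h.sumε
  rw [Fin.sum_univ_four] at this
  exact this

lemma eps_lt (h : Data ε D E B δ) (i : Fin 4) : 0 < 1 - ε i := by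
  have h1 := h.sort 0 i (Fin.zero_le i)
  have h2 := sum4 h
  have h3 := h.ε0 1
  have h4 := h.ε0 2
  have h5 := h.ε0 3
  have h6 := h.δ1
  linarith

lemma B_le (h : Data ε D E B δ) {i j : Fin 4} (hij : i ≠ j) : B i j ≤ ε j := by
  have h1 := h.Bcol j
  have h2 := h.Bd j
  have h3 : B i j + B j j ≤ ∑ k, B k j := by
    rw [← Finset.sum_pair (f := fun k => B k j) hij]
    exact Finset.sum_le_sum_of_subset_of_nonneg (Finset.subset_univ _) (fun k _ _ => h.B0 k j)
  linarith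

/-- the top rival `k` of the row `i`, if it is at most `(1 + D) / 2` -/
lemma rowgen (h : Data ε D E B δ) (i k : Fin 4) (hik : i < k)
    (htop : ∀ j, i < j → B i j ≤ B i k) (hw : B i k ≤ (1 + D i) / 2 * (1 - ε i)) :
    7/10 * (2 * (1 - ε i)) - (2 * (1 - ε i))^2/8 - 13/20 * (B i k / (1 - ε i))^2 -
      9/8 * ∑ j ∈ (Finset.Ioi i).erase k, (B i j / (1 - ε i))^2 ≤
        E i + 2 * (1 - ε i) * D i := by
  have he := eps_lt h i
  have hsorted := h.sort i k hik.le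
  have hBk := B_le h hik.ne
  have hB0 := h.B0 i k
  refine rowA (D i) (E i) (2 * (1 - ε i)) (B i k / (1 - ε i)) _ (h.D0 i) (h.E0 i) (by linarith)
    (by positivity) (Finset.sum_nonneg (fun j _ => sq_nonneg _)) ?_ ?_ ?_ ?_
  · rw [div_le_iff₀ he]; exact hw
  · have : B i k / (1 - ε i) * (1 - ε i) = B i k := by field_simp
    nlinarith
  · intro hD h1
    rw [div_le_iff₀ he] at h1
    exact h.E1 i hD (fun j hj => (htop j hj).trans h1)
  · intro v hv hv1 hwv
    rw [div_le_iff₀ he] at hwv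
    have h2 := h.E2 i v hv hv1 (fun j hj => (htop j hj).trans hwv)
      (fun j hj => (htop j hj).trans hw)
    have h3 : ∑ j ∈ Finset.Ioi i, (max (B i j / (1 - ε i) - D i) 0)^2 ≤
        (max (B i k / (1 - ε i) - D i) 0)^2 +
          ∑ j ∈ (Finset.Ioi i).erase k, (B i j / (1 - ε i))^2 := by
      rw [← Finset.add_sum_erase _ _ (Finset.mem_Ioi.2 hik)]
      refine add_le_add le_rfl (Finset.sum_le_sum fun j _ => ?_)
      have hj : 0 ≤ B i j / (1 - ε i) := div_nonneg (h.B0 i j) he.le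
      have hD := h.D0 i
      exact pow_le_pow_left₀ (le_max_right _ _) (max_le (by linarith) hj) 2
    linarith

/-- the rows `i` whose top rival `k` is at most `1 / 2` -/
lemma rowtot (h : Data ε D E B δ) (i k : Fin 4) (hik : i < k)
    (htop : ∀ j, i < j → B i j ≤ B i k) (hw : ε i + 2 * ε k ≤ 1) :
    9/10 - 2/5 * ε i - 1/2 * (ε i)^2 - 13/20 * (B i k / (1 - ε i))^2 -
      9/8 * ∑ j ∈ (Finset.Ioi i).erase k, (B i j / (1 - ε i))^2 ≤
        E i + 2 * (1 - ε i) * D i := by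
  have he := eps_lt h i
  have hBk := B_le h hik.ne
  have hD := h.D0 i
  have h1 := rowgen h i k hik htop (by nlinarith)
  have h2 : 7/10 * (2 * (1 - ε i)) - (2 * (1 - ε i))^2/8 =
    9/10 - 2/5 * ε i - 1/2 * (ε i)^2 := by ring
  linarith

lemma row3 (h : Data ε D E B δ) :
    9/10 - 2/5 * ε 3 - 1/2 * (ε 3)^2 ≤ E 3 + 2 * (1 - ε 3) * D 3 := by
  have he := eps_lt h 3
  have hI : Finset.Ioi (3 : Fin 4) = ∅ := by decide
  have e3 := h.ε0 3
  have h1 := rowA (D 3) (E 3) (2 * (1 - ε 3)) 0 0 (h.D0 3) (h.E0 3) (by linarith) le_rfl le_rfl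
    (by have := h.D0 3; linarith) (by linarith)
    (fun hD _ => h.E1 3 hD (fun j hj => absurd hj (by omega)))
    (fun v hv hv1 _ => by
      have h2 := h.E2 3 v hv hv1 (fun j hj => absurd hj (by omega))
        (fun j hj => absurd hj (by omega))
      rw [hI, Finset.sum_empty] at h2
      have h3 : max (0 - D 3) 0 = 0 := max_eq_right (by have := h.D0 3; linarith)
      rw [h3]
      linarith)
  have h2 : 7/10 * (2 * (1 - ε 3)) - (2 * (1 - ε 3))^2/8 =
    9/10 - 2/5 * ε 3 - 1/2 * (ε 3)^2 := by ring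
  linarith

lemma row2 (h : Data ε D E B δ) :
    9/10 - 2/5 * ε 2 - 1/2 * (ε 2)^2 - 9/8 * (B 2 3 / (1 - ε 2))^2 ≤
      E 2 + 2 * (1 - ε 2) * D 2 := by
  have hI : (Finset.Ioi (2 : Fin 4)).erase 3 = ∅ := by decide
  have s1 := sum4 h
  have s2 := h.sort 0 3 (by decide)
  have s3 := h.ε0 1
  have s4 := h.δ1
  have s5 := h.ε0 3
  have s6 := h.sort 1 3 (by decide)
  have h1 := rowtot h 2 3 (by decide) (fun j hj => by
    have : j = 3 := by omega
    rw [this]) (by linarith)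
  rw [hI, Finset.sum_empty] at h1
  have h2 : 0 ≤ (B 2 3 / (1 - ε 2))^2 := sq_nonneg _
  linarith

lemma row1 (h : Data ε D E B δ) :
    9/10 - 2/5 * ε 1 - 1/2 * (ε 1)^2 - 9/8 * ((B 1 2 / (1 - ε 1))^2 + (B 1 3 / (1 - ε 1))^2) ≤
      E 1 + 2 * (1 - ε 1) * D 1 := by
  have hI3 : (Finset.Ioi (1 : Fin 4)).erase 3 = {2} := by decide
  have hI2 : (Finset.Ioi (1 : Fin 4)).erase 2 = {3} := by decide
  have s1 := sum4 h
  have s2 := h.sort 0 2 (by decide)
  have s3 := h.sort 0 3 (by decide)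
  have s4 := h.δ1
  have s5 := h.ε0 2
  have s6 := h.ε0 3
  have h2 : 0 ≤ (B 1 2 / (1 - ε 1))^2 := sq_nonneg _
  have h3 : 0 ≤ (B 1 3 / (1 - ε 1))^2 := sq_nonneg _
  rcases le_total (B 1 2) (B 1 3) with hc | hc
  · have h1 := rowtot h 1 3 (by decide) (fun j hj => by
      have : j = 2 ∨ j = 3 := by omega
      rcases this with rfl | rfl
      · exact hc
      · exact le_rfl) (by linarith)
    rw [hI3, Finset.sum_singleton] at h1
    linarith
  · have h1 := rowtot h 1 2 (by decide) (fun j hj => by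
      have : j = 2 ∨ j = 3 := by omega
      rcases this with rfl | rfl
      · exact le_rfl
      · exact hc) (by linarith)
    rw [hI2, Finset.sum_singleton] at h1
    linarith

lemma row0 (h : Data ε D E B δ) :
    9/10 - 2/5 * ε 0 - 1/2 * (ε 0)^2 - 13/20 * (B 0 1 / (1 - ε 0))^2 -
      9/8 * ((B 0 2 / (1 - ε 0))^2 + (B 0 3 / (1 - ε 0))^2) ≤ E 0 + 2 * (1 - ε 0) * D 0 := by
  have hI1 : (Finset.Ioi (0 : Fin 4)).erase 1 = {2, 3} := by decide
  have hI2 : (Finset.Ioi (0 : Fin 4)).erase 2 = {1, 3} := by decide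
  have hI3 : (Finset.Ioi (0 : Fin 4)).erase 3 = {1, 2} := by decide
  have he := eps_lt h 0
  have s1 := sum4 h
  have s2 := h.sort 1 2 (by decide)
  have s3 := h.sort 2 3 (by decide)
  have s4 := h.δ1
  have s5 := h.ε0 3
  have b1 := h.B0 0 1
  have b2 := h.B0 0 2
  have b3 := h.B0 0 3
  have c1 := B_le h (i := 0) (j := 1) (by decide)
  have c2 := B_le h (i := 0) (j := 2) (by decide)
  have c3 := B_le h (i := 0) (j := 3) (by decide)
  have e0 := h.ε0 0
  have hD := h.D0 0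
  -- comparison of the squares
  have hsq : ∀ u v : ℝ, 0 ≤ u → u ≤ v → (u / (1 - ε 0))^2 ≤ (v / (1 - ε 0))^2 := by
    intro u v hu huv
    exact pow_le_pow_left₀ (div_nonneg hu he.le) (div_le_div_of_nonneg_right huv he.le) 2
  have htop : ((B 0 2 ≤ B 0 1 ∧ B 0 3 ≤ B 0 1) ∨ (B 0 1 ≤ B 0 2 ∧ B 0 3 ≤ B 0 2)) ∨
      (B 0 1 ≤ B 0 3 ∧ B 0 2 ≤ B 0 3) := by
    rcases le_total (B 0 1) (B 0 2) with x | x
    · rcases le_total (B 0 2) (B 0 3) with z | z
      · exact Or.inr ⟨x.trans z, z⟩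
      · exact Or.inl (Or.inr ⟨x, z⟩)
    · rcases le_total (B 0 1) (B 0 3) with z | z
      · exact Or.inr ⟨z, x.trans z⟩
      · exact Or.inl (Or.inl ⟨x, z⟩)
  rcases htop with (⟨x, y⟩ | ⟨x, y⟩) | ⟨x, y⟩
  · rcases le_total (B 0 1) ((1 + D 0) / 2 * (1 - ε 0)) with hw | hw
    · have h1 := rowgen h 0 1 (by decide) (fun j hj => by
        have : j = 1 ∨ j = 2 ∨ j = 3 := by omega
        rcases this with rfl | rfl | rfl
        · exact le_rfl
        · exact x
        · exact y) hw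
      rw [hI1, Finset.sum_pair (by decide)] at h1
      have h2 : 7/10 * (2 * (1 - ε 0)) - (2 * (1 - ε 0))^2/8 =
        9/10 - 2/5 * ε 0 - 1/2 * (ε 0)^2 := by ring
      linarith
    · have hlt : B 0 1 < 1 - ε 0 := by
        have := h.ε0 2
        linarith
      have hD1 : D 0 < 1 := by
        rcases lt_or_ge (D 0) 1 with hcon | hcon
        · exact hcon
        · nlinarith
      have h3 := h.E3 0 1 (by decide) hD1 hw hlt (fun j hj hj1 => by
        have : j = 2 ∨ j = 3 := by omega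
        rcases this with rfl | rfl
        · nlinarith
        · nlinarith)
      have hw' : (1 + D 0) / 2 ≤ B 0 1 / (1 - ε 0) := by
        rw [le_div_iff₀ he]; exact hw
      have hw1 : B 0 1 / (1 - ε 0) < 1 := by
        rw [div_lt_one he]; exact hlt
      have hm : 2 * (1 - ε 0) * (1 + B 0 1 / (1 - ε 0)) ≤ 2 := by
        have h5 : B 0 1 / (1 - ε 0) * (1 - ε 0) = B 0 1 := by field_simp
        have h6 := h.sort 0 1 (by decide)
        nlinarith
      have h4 := L3 (D 0) (B 0 1 / (1 - ε 0)) (2 * (1 - ε 0)) hD hw' hw1 hm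
      rw [hI1, Finset.sum_pair (by decide)] at h3
      have h5 : (max (B 0 2 / (1 - ε 0) - D 0) 0)^2 ≤ (B 0 2 / (1 - ε 0))^2 :=
        pow_le_pow_left₀ (le_max_right _ _)
          (max_le (by linarith) (div_nonneg b2 he.le)) 2
      have h6 : (max (B 0 3 / (1 - ε 0) - D 0) 0)^2 ≤ (B 0 3 / (1 - ε 0))^2 :=
        pow_le_pow_left₀ (le_max_right _ _)
          (max_le (by linarith) (div_nonneg b3 he.le)) 2
      have h2 : 7/10 * (2 * (1 - ε 0)) - (2 * (1 - ε 0))^2/8 =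
        9/10 - 2/5 * ε 0 - 1/2 * (ε 0)^2 := by ring
      linarith
  · have h1 := rowtot h 0 2 (by decide) (fun j hj => by
      have : j = 1 ∨ j = 2 ∨ j = 3 := by omega
      rcases this with rfl | rfl | rfl
      · exact x
      · exact le_rfl
      · exact y) (by linarith)
    rw [hI2, Finset.sum_pair (by decide)] at h1
    have h2 := hsq _ _ b1 x
    linarith
  · have h1 := rowtot h 0 3 (by decide) (fun j hj => by
      have : j = 1 ∨ j = 2 ∨ j = 3 := by omega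
      rcases this with rfl | rfl | rfl
      · exact x
      · exact y
      · exact le_rfl) (by linarith)
    rw [hI3, Finset.sum_pair (by decide)] at h1
    have h2 := hsq _ _ b1 x
    linarith

/-- the penalties -/
lemma penalty (h : Data ε D E B δ) :
    13/20 * (B 0 1 / (1 - ε 0))^2 + 9/8 * ((B 0 2 / (1 - ε 0))^2 +
      (B 0 3 / (1 - ε 0))^2 + ((B 1 2 / (1 - ε 1))^2 + (B 1 3 / (1 - ε 1))^2) +
      (B 2 3 / (1 - ε 2))^2) ≤
      (13/20 * (ε 1)^2 + 9/8 * ((ε 2)^2 + (ε 3)^2)) / (1 - ε 0)^2 := by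
  have he0 := eps_lt h 0
  have t1 := h.sort 0 1 (by decide)
  have t2 := h.sort 0 2 (by decide)
  have hsq : 0 < (1 - ε 0)^2 := by positivity
  have hcol : ∀ u v e : ℝ, 0 ≤ u → u ≤ v → 1 - ε 0 ≤ 1 - e →
      (u / (1 - e))^2 ≤ v^2 / (1 - ε 0)^2 := by
    intro u v e hu huv h1
    rw [← div_pow]
    refine pow_le_pow_left₀ (div_nonneg hu (by linarith)) ?_ 2
    exact div_le_div₀ (by linarith) huv he0 h1
  have c1 := hcol (B 0 1) (ε 1) (ε 0) (h.B0 0 1) (B_le h (by decide)) le_rfl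
  have c02 := hcol (B 0 2) (B 0 2) (ε 0) (h.B0 0 2) le_rfl le_rfl
  have c12 := hcol (B 1 2) (B 1 2) (ε 1) (h.B0 1 2) le_rfl (by linarith)
  have c03 := hcol (B 0 3) (B 0 3) (ε 0) (h.B0 0 3) le_rfl le_rfl
  have c13 := hcol (B 1 3) (B 1 3) (ε 1) (h.B0 1 3) le_rfl (by linarith)
  have c23 := hcol (B 2 3) (B 2 3) (ε 2) (h.B0 2 3) le_rfl (by linarith)
  have k2 : (B 0 2)^2 + (B 1 2)^2 ≤ (ε 2)^2 := by
    have a1 := h.Bcol 2
    have a2 := h.Bd 2
    rw [Fin.sum_univ_four] at a1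
    have a3 := h.B0 0 2
    have a4 := h.B0 1 2
    have a5 := h.B0 3 2
    have a6 : B 0 2 + B 1 2 ≤ ε 2 := by linarith
    have a7 := pow_le_pow_left₀ (by linarith) a6 2
    have a8 := mul_nonneg a3 a4
    linarith only [a7, a8]
  have k3 : (B 0 3)^2 + (B 1 3)^2 + (B 2 3)^2 ≤ (ε 3)^2 := by
    have a1 := h.Bcol 3
    have a2 := h.Bd 3
    rw [Fin.sum_univ_four] at a1
    have a3 := h.B0 0 3
    have a4 := h.B0 1 3
    have a5 := h.B0 2 3
    have a6 : ε 3 = B 0 3 + B 1 3 + B 2 3 := by linarith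
    have a7 := mul_nonneg a3 a4
    have a8 := mul_nonneg a3 a5
    have a9 := mul_nonneg a4 a5
    rw [a6]
    linarith only [a7, a8, a9]
  have e1 : (13/20 * (ε 1)^2 + 9/8 * ((ε 2)^2 + (ε 3)^2)) / (1 - ε 0)^2 =
    13/20 * ((ε 1)^2 / (1 - ε 0)^2) + 9/8 * ((ε 2)^2 / (1 - ε 0)^2 +
      (ε 3)^2 / (1 - ε 0)^2) := by ring
  have e2 : (B 0 2)^2 / (1 - ε 0)^2 + (B 1 2)^2 / (1 - ε 0)^2 ≤ (ε 2)^2 / (1 - ε 0)^2 := by
    rw [← add_div]
    exact div_le_div_of_nonneg_right k2 hsq.le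
  have e3 : (B 0 3)^2 / (1 - ε 0)^2 + (B 1 3)^2 / (1 - ε 0)^2 + (B 2 3)^2 / (1 - ε 0)^2 ≤
      (ε 3)^2 / (1 - ε 0)^2 := by
    rw [← add_div, ← add_div]
    exact div_le_div_of_nonneg_right k3 hsq.le
  rw [e1]
  linarith only [c1, c02, c12, c03, c13, c23, e2, e3]

/-- Part H2. -/
theorem h2 : S_H2 := by
  intro ε D E B δ h hδ
  have s1 := sum4 h
  have hDs := h.sumD
  rw [Fin.sum_univ_four] at hDs
  rw [Fin.sum_univ_four]
  have r0 := row0 h
  have r1 := row1 h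
  have r2 := row2 h
  have r3 := row3 h
  have hfin := final (ε 0) (ε 1) (ε 2) (ε 3) δ (h.sort 0 1 (by decide)) (h.sort 1 2 (by decide))
    (h.sort 2 3 (by decide)) (h.ε0 3) s1 h.δ1 hδ
  have hpen := penalty h
  linarith only [r0, r1, r2, r3, hfin, hpen, s1, hDs]

end Pool.Agent.Helper28.M3
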