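import Mathlib

/-!
# The real inequality of part H2 of the sharp Mahler inequality in `ℝ³`: polynomial inequalities

Bernstein certificates on intervals and triangles.
-/

set_option autoImplicit false

namespace Pool.Agent.Helper28.M3

lemma p1a (D w l1 l2 l3 : ℝ) (h1 : 0 ≤ l1) (h2 : 0 ≤ l2) (h3 : 0 ≤ l3)
    (hs : l3 = 1 - l1 - l2)
    (hD : D = l1 * (0) + l2 * (0) + l3 * (1/4)) (hw : w = l1 * (0) + l2 * (1/2) + l3 * (5/8)) :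
    0 ≤ (1 - D)^4 + (1 - w)^4 * D - 9/8 * (w - D)^2 + 13/20 * w^2 - 2 * (w / 5) - 2 * (7/10 - D - w / 5 * (1 + w))^2 := by
  have key : (1 - D)^4 + (1 - w)^4 * D - 9/8 * (w - D)^2 + 13/20 * w^2 - 2 * (w / 5) - 2 * (7/10 - D - w / 5 * (1 + w))^2 =
      (1/50)*l1^5 + (9/50)*l1^4*l2 + (3/20)*l1^4*l3 + (417/800)*l1^3*l2^2
       + (967/1600)*l1^3*l2*l3 + (469/2560)*l1^3*l3^2 + (531/800)*l1^2*l2^3
       + (1867/1600)*l1^2*l2^2*l3 + (10259/12800)*l1^2*l2*l3^2 + (131/512)*l1^2*l3^3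
       + (303/800)*l1*l2^4 + (1489/1600)*l1*l2^3*l3 + (13331/12800)*l1*l2^2*l3^2
       + (4463/6400)*l1*l2*l3^3 + (2147/10240)*l1*l3^4 + (61/800)*l2^5 + (183/800)*l2^4*l3
       + (4241/12800)*l2^3*l3^2 + (2071/6400)*l2^2*l3^3 + (9721/51200)*l2*l3^4
       + (18497/409600)*l3^5 := by
    subst hD hw hs
    ring
  rw [key]
  positivity

lemma p1b (D w l1 l2 l3 : ℝ) (h1 : 0 ≤ l1) (h2 : 0 ≤ l2) (h3 : 0 ≤ l3)
    (hs : l3 = 1 - l1 - l2)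
    (hD : D = l1 * (0) + l2 * (1/4) + l3 * (1/4)) (hw : w = l1 * (0) + l2 * (1/4) + l3 * (5/8)) :
    0 ≤ (1 - D)^4 + (1 - w)^4 * D - 9/8 * (w - D)^2 + 13/20 * w^2 - 2 * (w / 5) - 2 * (7/10 - D - w / 5 * (1 + w))^2 := by
  have key : (1 - D)^4 + (1 - w)^4 * D - 9/8 * (w - D)^2 + 13/20 * w^2 - 2 * (w / 5) - 2 * (7/10 - D - w / 5 * (1 + w))^2 =
      (1/50)*l1^5 + (9/100)*l1^4*l2 + (3/20)*l1^4*l3 + (289/1600)*l1^3*l2^2
       + (581/1600)*l1^3*l2*l3 + (469/2560)*l1^3*l3^2 + (349/1600)*l1^2*l2^3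
       + (213/400)*l1^2*l2^2*l3 + (7407/12800)*l1^2*l2*l3^2 + (131/512)*l1^2*l3^3
       + (911/6400)*l1*l2^4 + (1561/3200)*l1*l2^3*l3 + (10671/12800)*l1*l2^2*l3^2
       + (8953/12800)*l1*l2*l3^3 + (2147/10240)*l1*l3^4 + (917/25600)*l2^5
       + (4279/25600)*l2^4*l3 + (19483/51200)*l2^3*l3^2 + (1423/3200)*l2^2*l3^3
       + (98569/409600)*l2*l3^4 + (18497/409600)*l3^5 := by
    subst hD hw hs
    ring
  rw [key]
  positivity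

lemma p2 (D w l1 l2 l3 : ℝ) (h1 : 0 ≤ l1) (h2 : 0 ≤ l2) (h3 : 0 ≤ l3)
    (hs : l3 = 1 - l1 - l2)
    (hD : D = l1 * (1/4) + l2 * (1/4) + l3 * (1)) (hw : w = l1 * (1/4) + l2 * (5/8) + l3 * (1)) :
    0 ≤ (1 - D)^4 + (1 - w)^4 * D - 9/8 * (w - D)^2 + 13/20 * w^2 - 2 * (7/10 - D)^2 := by
  have key : (1 - D)^4 + (1 - w)^4 * D - 9/8 * (w - D)^2 + 13/20 * w^2 - 2 * (7/10 - D)^2 =
      (797/25600)*l1^5 + (611/5120)*l1^4*l2 + (259/640)*l1^4*l3 + (2231/10240)*l1^3*l2^2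
       + (1177/640)*l1^3*l2*l3 + (631/320)*l1^3*l3^2 + (67/320)*l1^2*l2^3
       + (861/256)*l1^2*l2^2*l3 + (1239/160)*l1^2*l2*l3^2 + (233/64)*l1^2*l3^3
       + (7517/81920)*l1*l2^4 + (1367/512)*l1*l2^3*l3 + (23991/2560)*l1*l2^2*l3^2
       + (2837/320)*l1*l2*l3^3 + (91/40)*l1*l3^4 + (4937/409600)*l2^5 + (15581/20480)*l2^4*l3
       + (1843/512)*l2^3*l3^2 + (2641/512)*l2^2*l3^3 + (221/80)*l2*l3^4 + (47/100)*l3^5 := by
    subst hD hw hs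
    ring
  rw [key]
  positivity

lemma p3a (D w l1 l2 l3 : ℝ) (h1 : 0 ≤ l1) (h2 : 0 ≤ l2) (h3 : 0 ≤ l3)
    (hs : l3 = 1 - l1 - l2)
    (hD : D = l1 * (0) + l2 * (1/4) + l3 * (0)) (hw : w = l1 * (1/2) + l2 * (5/8) + l3 * (1)) :
    0 ≤ ((1 - D) * w + 2 * w - (1 + D)) * ((1 - D)^2 * w^2 + (2 * w - (1 + D))^2) *
      (3 * (1 + D) * (1 - w) - (1 + D - w) * (1 - D)) +
      3 * w^4 * (13/20 * w^2 - 2 * (w / 4) - 2 * (7/10 - D - w / 4 * (1 + w))^2) := by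
  have key : ((1 - D) * w + 2 * w - (1 + D)) * ((1 - D)^2 * w^2 + (2 * w - (1 + D))^2) *
      (3 * (1 + D) * (1 - w) - (1 + D - w) * (1 - D)) +
      3 * w^4 * (13/20 * w^2 - 2 * (w / 4) - 2 * (7/10 - D - w / 4 * (1 + w))^2) =
      (517/51200)*l1^8 + (4583/51200)*l1^7*l2 + (2961/12800)*l1^7*l3 + (73713/204800)*l1^6*l2^2
       + (89743/51200)*l1^6*l2*l3 + (23921/12800)*l1^6*l3^2 + (696593/819200)*l1^5*l2^3
       + (238197/40960)*l1^5*l2^2*l3 + (304949/25600)*l1^5*l2*l3^2 + (495/64)*l1^5*l3^3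
       + (8360231/6553600)*l1^4*l2^4 + (8933487/819200)*l1^4*l2^3*l3
       + (6578423/204800)*l1^4*l2^2*l3^2 + (257739/6400)*l1^4*l2*l3^3 + (53177/3200)*l1^4*l3^4
       + (3220437/2621440)*l1^3*l2^5 + (40615739/3276800)*l1^3*l2^4*l3
       + (9573459/204800)*l1^3*l2^3*l3^2 + (1086169/12800)*l1^3*l2^2*l3^3
       + (54149/800)*l1^3*l2*l3^4 + (3061/160)*l1^3*l3^5 + (1536393/2097152)*l1^2*l2^6
       + (22183857/2621440)*l1^2*l2^5*l3 + (126128287/3276800)*l1^2*l2^4*l3^2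
       + (4615573/51200)*l1^2*l2^3*l3^3 + (2673319/25600)*l1^2*l2^2*l3^4
       + (180739/3200)*l1^2*l2*l3^5 + (9239/800)*l1^2*l3^6 + (2050935/8388608)*l1*l2^7
       + (6669987/2097152)*l1*l2^6*l3 + (22104417/1310720)*l1*l2^5*l3^2
       + (19657847/409600)*l1*l2^4*l3^3 + (921731/12800)*l1*l2^3*l3^4
       + (717087/12800)*l1*l2^2*l3^5 + (6793/320)*l1*l2*l3^6 + (79/25)*l1*l3^7
       + (4634925/134217728)*l2^8 + (4209045/8388608)*l2^7*l3 + (6375777/2097152)*l2^6*l3^2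
       + (3327567/327680)*l2^5*l3^3 + (15223417/819200)*l2^4*l3^4 + (949173/51200)*l2^3*l3^5
       + (124383/12800)*l2^2*l3^6 + (239/100)*l2*l3^7 + (21/100)*l3^8 := by
    subst hD hw hs
    ring
  rw [key]
  positivity

lemma p3b (D w l1 l2 l3 : ℝ) (h1 : 0 ≤ l1) (h2 : 0 ≤ l2) (h3 : 0 ≤ l3)
    (hs : l3 = 1 - l1 - l2)
    (hD : D = l1 * (1/4) + l2 * (0) + l3 * (1/4)) (hw : w = l1 * (5/8) + l2 * (1) + l3 * (1)) :
    0 ≤ ((1 - D) * w + 2 * w - (1 + D)) * ((1 - D)^2 * w^2 + (2 * w - (1 + D))^2) *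
      (3 * (1 + D) * (1 - w) - (1 + D - w) * (1 - D)) +
      3 * w^4 * (13/20 * w^2 - 2 * (w / 4) - 2 * (7/10 - D - w / 4 * (1 + w))^2) := by
  have key : ((1 - D) * w + 2 * w - (1 + D)) * ((1 - D)^2 * w^2 + (2 * w - (1 + D))^2) *
      (3 * (1 + D) * (1 - w) - (1 + D - w) * (1 - D)) +
      3 * w^4 * (13/20 * w^2 - 2 * (w / 4) - 2 * (7/10 - D - w / 4 * (1 + w))^2) =
      (4634925/134217728)*l1^8 + (4209045/8388608)*l1^7*l2 + (3936045/8388608)*l1^7*l3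
       + (6375777/2097152)*l1^6*l2^2 + (2981751/524288)*l1^6*l2*l3 + (5559027/2097152)*l1^6*l3^2
       + (3327567/327680)*l1^5*l2^3 + (18639477/655360)*l1^5*l2^2*l3
       + (17374077/655360)*l1^5*l2*l3^2 + (10755993/1310720)*l1^5*l3^3
       + (15223417/819200)*l1^4*l2^4 + (14444517/204800)*l1^4*l2^3*l3
       + (20477313/204800)*l1^4*l2^2*l3^2 + (205366647/3276800)*l1^4*l2*l3^3
       + (191759397/13107200)*l1^4*l3^4 + (949173/51200)*l1^3*l2^5 + (230003/2560)*l1^3*l2^4*l3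
       + (3553989/20480)*l1^3*l2^3*l3^2 + (341283/2048)*l1^3*l2^2*l3^3
       + (26017023/327680)*l1^3*l2*l3^4 + (196366683/13107200)*l1^3*l3^5
       + (124383/12800)*l1^2*l2^6 + (183447/3200)*l1^2*l2^5*l3 + (361479/2560)*l1^2*l2^4*l3^2
       + (947409/5120)*l1^2*l2^3*l3^3 + (2775897/20480)*l1^2*l2^2*l3^4
       + (21476511/409600)*l1^2*l2*l3^5 + (3415611/409600)*l1^2*l3^6 + (239/100)*l1*l2^7
       + (12849/800)*l1*l2^6*l3 + (37917/800)*l1*l2^5*l3^2 + (12599/160)*l1*l2^4*l3^3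
       + (201579/2560)*l1*l2^3*l3^4 + (4811481/102400)*l1*l2^2*l3^5 + (787461/51200)*l1*l2*l3^6
       + (216681/102400)*l1*l3^7 + (21/100)*l2^8 + (32/25)*l2^7*l3 + (741/200)*l2^6*l3^2
       + (1347/200)*l2^5*l3^3 + (661/80)*l2^4*l3^4 + (43239/6400)*l2^3*l3^5
       + (22197/6400)*l2^2*l3^6 + (6357/6400)*l2*l3^7 + (759/6400)*l3^8 := by
    subst hD hw hs
    ring
  rw [key]
  positivity

lemma p4 (D w l1 l2 l3 : ℝ) (h1 : 0 ≤ l1) (h2 : 0 ≤ l2) (h3 : 0 ≤ l3)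
    (hs : l3 = 1 - l1 - l2)
    (hD : D = l1 * (1/4) + l2 * (1/4) + l3 * (1)) (hw : w = l1 * (5/8) + l2 * (1) + l3 * (1)) :
    0 ≤ ((1 - D) * w + 2 * w - (1 + D)) * ((1 - D)^2 * w^2 + (2 * w - (1 + D))^2) *
      (3 * (1 + D) * (1 - w) - (1 + D - w) * (1 - D)) +
      3 * w^4 * (13/20 * w^2 - 2 * (7/10 - D)^2) := by
  have key : ((1 - D) * w + 2 * w - (1 + D)) * ((1 - D)^2 * w^2 + (2 * w - (1 + D))^2) *
      (3 * (1 + D) * (1 - w) - (1 + D - w) * (1 - D)) +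
      3 * w^4 * (13/20 * w^2 - 2 * (7/10 - D)^2) =
      (28725/1048576)*l1^8 + (106185/262144)*l1^7*l2 + (343995/524288)*l1^7*l3
       + (2556951/1048576)*l1^6*l2^2 + (3820551/524288)*l1^6*l2*l3 + (5119251/1048576)*l1^6*l3^2
       + (10455243/1310720)*l1^5*l2^3 + (22171977/655360)*l1^5*l2^2*l3
       + (14444451/327680)*l1^5*l2*l3^2 + (5813817/327680)*l1^5*l3^3
       + (196913397/13107200)*l1^4*l2^4 + (279391647/3276800)*l1^4*l2^3*l3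
       + (133847577/819200)*l1^4*l2^2*l3^2 + (26543217/204800)*l1^4*l2*l3^3
       + (14848071/409600)*l1^4*l3^4 + (216361563/13107200)*l1^3*l2^5
       + (16166253/131072)*l1^3*l2^4*l3 + (26057967/81920)*l1^3*l2^3*l3^2
       + (3834813/10240)*l1^3*l2^2*l3^3 + (530169/2560)*l1^3*l2*l3^4 + (554577/12800)*l1^3*l3^5
       + (4225371/409600)*l1^2*l2^6 + (41541291/409600)*l1^2*l2^5*l3
       + (433287/1280)*l1^2*l2^4*l3^2 + (2737599/5120)*l1^2*l2^3*l3^3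
       + (281241/640)*l1^2*l2^2*l3^4 + (581517/3200)*l1^2*l2*l3^5 + (189249/6400)*l1^2*l3^6
       + (341481/102400)*l1*l2^7 + (2245551/51200)*l1*l2^6*l3 + (18985761/102400)*l1*l2^5*l3^2
       + (1913943/5120)*l1*l2^4*l3^3 + (262581/640)*l1*l2^3*l3^4 + (50373/200)*l1*l2^2*l3^5
       + (32367/400)*l1*l2*l3^6 + (4161/400)*l1*l3^7 + (2679/6400)*l2^8 + (49377/6400)*l2^7*l3
       + (261177/6400)*l2^6*l3^2 + (651819/6400)*l2^5*l3^3 + (45219/320)*l2^4*l3^4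
       + (11541/100)*l2^3*l3^5 + (11001/200)*l2^2*l3^6 + (699/50)*l2*l3^7 + (141/100)*l3^8 := by
    subst hD hw hs
    ring
  rw [key]
  positivity

lemma q1a (D l1 l2 : ℝ) (h1 : 0 ≤ l1) (h2 : 0 ≤ l2)
    (hs : l2 = 1 - l1)
    (hD : D = l1 * (0) + l2 * (7/20)) :
    0 ≤ 27 * (1 - D)^4 - 2 * (7/10 - D)^2 * (3 - D)^3 := by
  have key : 27 * (1 - D)^4 - 2 * (7/10 - D)^2 * (3 - D)^3 =
      (27/50)*l1^6 + (1161/1000)*l1^5*l2 + (11871/20000)*l1^4*l2^2 + (148567/400000)*l1^3*l2^3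
       + (924793/800000)*l1^2*l2^4 + (325579/320000)*l1*l2^5 + (416497/1600000)*l2^6 := by
    subst hD hs
    ring
  rw [key]
  positivity

lemma q1b (D l1 l2 : ℝ) (h1 : 0 ≤ l1) (h2 : 0 ≤ l2)
    (hs : l2 = 1 - l1)
    (hD : D = l1 * (7/20) + l2 * (7/10)) :
    0 ≤ 27 * (1 - D)^4 - 2 * (7/10 - D)^2 * (3 - D)^3 := by
  have key : 27 * (1 - D)^4 - 2 * (7/10 - D)^2 * (3 - D)^3 =
      (416497/1600000)*l1^6 + (3370069/1600000)*l1^5*l2 + (1320057/200000)*l1^4*l2^2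
       + (786307/80000)*l1^3*l2^3 + (1437727/200000)*l1^2*l2^4 + (1458/625)*l1*l2^5
       + (2187/10000)*l2^6 := by
    subst hD hs
    ring
  rw [key]
  positivity

lemma q2a (D l1 l2 : ℝ) (h1 : 0 ≤ l1) (h2 : 0 ≤ l2)
    (hs : l2 = 1 - l1)
    (hD : D = l1 * (0) + l2 * (1/8)) :
    0 ≤ (1 - D)^4 * (1 + D) + 13/45 * D^2 - 2 * (7/10 - D)^2 := by
  have key : (1 - D)^4 * (1 + D) + 13/45 * D^2 - 2 * (7/10 - D)^2 =
      (1/50)*l1^5 + (3/40)*l1^4*l2 + (301/2880)*l1^3*l2^2 + (259/3840)*l1^2*l2^3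
       + (1267/61440)*l1*l2^4 + (20041/7372800)*l2^5 := by
    subst hD hs
    ring
  rw [key]
  positivity

lemma q2b (D l1 l2 : ℝ) (h1 : 0 ≤ l1) (h2 : 0 ≤ l2)
    (hs : l2 = 1 - l1)
    (hD : D = l1 * (1/8) + l2 * (1/4)) :
    0 ≤ (1 - D)^4 * (1 + D) + 13/45 * D^2 - 2 * (7/10 - D)^2 := by
  have key : (1 - D)^4 * (1 + D) + 13/45 * D^2 - 2 * (7/10 - D)^2 =
      (20041/7372800)*l1^5 + (4837/737280)*l1^4*l2 + (413/36864)*l1^3*l2^2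
       + (2093/92160)*l1^2*l2^3 + (2201/92160)*l1*l2^4 + (1973/230400)*l2^5 := by
    subst hD hs
    ring
  rw [key]
  positivity

lemma q2c (D l1 l2 : ℝ) (h1 : 0 ≤ l1) (h2 : 0 ≤ l2)
    (hs : l2 = 1 - l1)
    (hD : D = l1 * (1/4) + l2 * (1/2)) :
    0 ≤ (1 - D)^4 * (1 + D) + 13/45 * D^2 - 2 * (7/10 - D)^2 := by
  have key : (1 - D)^4 * (1 + D) + 13/45 * D^2 - 2 * (7/10 - D)^2 =
      (1973/230400)*l1^5 + (1859/23040)*l1^4*l2 + (1661/5760)*l1^3*l2^2 + (1327/2880)*l1^2*l2^3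
       + (949/2880)*l1*l2^4 + (619/7200)*l2^5 := by
    subst hD hs
    ring
  rw [key]
  positivity

lemma q2d (D l1 l2 : ℝ) (h1 : 0 ≤ l1) (h2 : 0 ≤ l2)
    (hs : l2 = 1 - l1)
    (hD : D = l1 * (1/2) + l2 * (1)) :
    0 ≤ (1 - D)^4 * (1 + D) + 13/45 * D^2 - 2 * (7/10 - D)^2 := by
  have key : (1 - D)^4 * (1 + D) + 13/45 * D^2 - 2 * (7/10 - D)^2 =
      (619/7200)*l1^5 + (227/360)*l1^4*l2 + (301/180)*l1^3*l2^2 + (343/180)*l1^2*l2^3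
       + (77/90)*l1*l2^4 + (49/450)*l2^5 := by
    subst hD hs
    ring
  rw [key]
  positivity

lemma u1 (d l1 l2 : ℝ) (h1 : 0 ≤ l1) (h2 : 0 ≤ l2)
    (hs : l2 = 1 - l1)
    (hd : d = l1 * (2/3) + l2 * (1)) :
    0 ≤ ((18/5 - 12/5 * d - 1/2 * d^2) * (4 - d) - 16 * (1 - d)) * (2 - d)^2 - 13/20 * d^2 * (4 - d) := by
  have key : ((18/5 - 12/5 * d - 1/2 * d^2) * (4 - d) - 16 * (1 - d)) * (2 - d)^2 - 13/20 * d^2 * (4 - d) =
      (22/243)*l1^5 + (193/135)*l1^4*l2 + (1033/270)*l1^3*l2^2 + (697/180)*l1^2*l2^3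
       + (23/15)*l1*l2^4 + (3/20)*l2^5 := by
    subst hd hs
    ring
  rw [key]
  positivity

lemma v1 (d x l1 l2 l3 : ℝ) (h1 : 0 ≤ l1) (h2 : 0 ≤ l2) (h3 : 0 ≤ l3)
    (hs : l3 = 1 - l1 - l2)
    (hd : d = l1 * (2/3) + l2 * (2/3) + l3 * (1)) (hx : x = l1 * (1/6) + l2 * (1/3) + l3 * (1/2)) :
    0 ≤ 80 * (1 - x)^2 * ((18/5 - 12/5 * d - 1/2 * d^2) * (4 - d) - 16 * (1 - d)) +
      40 * (1 - x)^2 * (4 - d) * (d - x) * d - (d - x) * (19 * d + 14 * x) * (4 - d) := by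
  have key : 80 * (1 - x)^2 * ((18/5 - 12/5 * d - 1/2 * d^2) * (4 - d) - 16 * (1 - d)) +
      40 * (1 - x)^2 * (4 - d) * (d - x) * d - (d - x) * (19 * d + 14 * x) * (4 - d) =
      (9425/243)*l1^5 + (39505/243)*l1^4*l2 + (34585/162)*l1^4*l3 + (65705/243)*l1^3*l2^2
       + (57829/81)*l1^3*l2*l3 + (22469/54)*l1^3*l3^2 + (54235/243)*l1^2*l2^3
       + (143873/162)*l1^2*l2^2*l3 + (27781/27)*l1^2*l2*l3^2 + (6559/18)*l1^2*l3^3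
       + (22250/243)*l1*l2^4 + (39476/81)*l1*l2^3*l3 + (45335/54)*l1*l2^2*l3^2
       + (1753/3)*l1*l2*l3^3 + (845/6)*l1*l3^4 + (3640/243)*l2^5 + (2692/27)*l2^4*l3
       + (6106/27)*l2^3*l3^2 + (2077/9)*l2^2*l3^3 + (322/3)*l2*l3^4 + 18*l3^5 := by
    subst hd hx hs
    ring
  rw [key]
  positivity

lemma v2 (d x l1 l2 l3 : ℝ) (h1 : 0 ≤ l1) (h2 : 0 ≤ l2) (h3 : 0 ≤ l3)
    (hs : l3 = 1 - l1 - l2)
    (hd : d = l1 * (2/3) + l2 * (1) + l3 * (1)) (hx : x = l1 * (1/6) + l2 * (1/4) + l3 * (1/2)) :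
    0 ≤ 80 * (1 - x)^2 * ((18/5 - 12/5 * d - 1/2 * d^2) * (4 - d) - 16 * (1 - d)) +
      40 * (1 - x)^2 * (4 - d) * (d - x) * d - (d - x) * (19 * d + 14 * x) * (4 - d) := by
  have key : 80 * (1 - x)^2 * ((18/5 - 12/5 * d - 1/2 * d^2) * (4 - d) - 16 * (1 - d)) +
      40 * (1 - x)^2 * (4 - d) * (d - x) * d - (d - x) * (19 * d + 14 * x) * (4 - d) =
      (9425/243)*l1^5 + (42205/162)*l1^4*l2 + (34585/162)*l1^4*l3 + (23185/36)*l1^3*l2^2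
       + (56279/54)*l1^3*l2*l3 + (22469/54)*l1^3*l3^2 + (18145/24)*l1^2*l2^3
       + (43499/24)*l1^2*l2^2*l3 + (51199/36)*l1^2*l2*l3^2 + (6559/18)*l1^2*l3^3
       + (1713/4)*l1*l2^4 + (2703/2)*l1*l2^3*l3 + (18749/12)*l1*l2^2*l3^2 + 780*l1*l2*l3^3
       + (845/6)*l1*l3^4 + (189/2)*l2^5 + (2943/8)*l2^4*l3 + (1113/2)*l2^3*l3^2
       + (3243/8)*l2^2*l3^3 + (561/4)*l2*l3^4 + 18*l3^5 := by
    subst hd hx hs
    ring
  rw [key]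
  positivity

end Pool.Agent.Helper28.M3
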