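import Pool.Agent.Helper28.M3.Poly

/-!
# The real inequality of part H2: the inequalities for one row
-/

set_option autoImplicit false

namespace Pool.Agent.Helper28.M3

lemma uncon (D m : ℝ) : (7/10) * m - m^2/8 - m * D ≤ 2 * (7/10 - D)^2 := by
  nlinarith [sq_nonneg (m - 4 * (7/10 - D))]

lemma lagr (D m w l : ℝ) (hl : 0 ≤ l) (hm : m * (1 + w) ≤ 2) :
    (7/10) * m - m^2/8 - m * D ≤ 2 * l + 2 * (7/10 - D - l * (1 + w))^2 := by
  have h1 : 0 ≤ l * (2 - m * (1 + w)) := mul_nonneg hl (by linarith)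
  nlinarith [sq_nonneg (7/10 - D - l * (1 + w) - m / 4)]

lemma L1 (D : ℝ) (h0 : 0 ≤ D) (h1 : D ≤ 7/10) :
    2 * (7/10 - D)^2 ≤ 27 * (1 - D)^4 / (3 - D)^3 := by
  have h3 : 0 < (3 - D)^3 := by
    have : 0 < 3 - D := by linarith
    positivity
  rw [le_div_iff₀ h3]
  rcases le_total D (7/20) with h | h
  · have := q1a D (1 - 20/7 * D) (20/7 * D) (by linarith) (by linarith) (by ring) (by ring)
    linarith
  · have := q1b D (2 - 20/7 * D) (20/7 * D - 1) (by linarith) (by linarith) (by ring) (by ring)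
    linarith

lemma L2b (D : ℝ) (h0 : 0 ≤ D) (h1 : D ≤ 1) :
    2 * (7/10 - D)^2 ≤ (1 - D)^4 * (1 + D) + 13/45 * D^2 := by
  rcases le_total D (1/8) with h | h
  · have := q2a D (1 - 8 * D) (8 * D) (by linarith) (by linarith) (by ring) (by ring)
    linarith
  rcases le_total D (1/4) with h' | h'
  · have := q2b D (2 - 8 * D) (8 * D - 1) (by linarith) (by linarith) (by ring) (by ring)
    linarith
  rcases le_total D (1/2) with h'' | h''
  · have := q2c D (2 - 4 * D) (4 * D - 1) (by linarith) (by linarith) (by ring) (by ring)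
    linarith
  · have := q2d D (2 - 2 * D) (2 * D - 1) (by linarith) (by linarith) (by ring) (by ring)
    linarith

lemma L2a (D w m : ℝ) (h0 : 0 ≤ D) (h1 : D ≤ w) (h2 : w ≤ (1 + D) / 2)
    (hm : m * (1 + w) ≤ 2) :
    (7/10) * m - m^2/8 - 13/20 * w^2 ≤
      (1 - D)^4 + (1 - w)^4 * D - 9/8 * (w - D)^2 + m * D := by
  rcases le_total D (1/4) with h | h
  · have hl := lagr D m w (w / 5) (by linarith) hm
    rcases le_total (5/2 * D) w with h' | h'
    · have := p1a D w (1 + D - 2 * w) (2 * w - 5 * D) (4 * D) (by linarith) (by linarith)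
        (by linarith) (by ring) (by ring) (by ring)
      linarith
    · have := p1b D w (1 - 4 * D) ((5 * D - 2 * w) * (4/3)) ((w - D) * (8/3)) (by linarith)
        (by linarith) (by linarith) (by ring) (by ring) (by ring)
      linarith
  · have hl := uncon D m
    have := p2 D w (4/3 * (1 - D) - 8/3 * (w - D)) (8/3 * (w - D)) (4/3 * D - 1/3)
      (by linarith) (by linarith) (by linarith) (by ring) (by ring) (by ring)
    linarith

/-- the left side of `E3` without the other rivals -/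
lemma E3form (D w : ℝ) (h0 : 0 ≤ D) (h1 : 0 < w) (h2 : w < 1) :
    ((1 - D)^4 - (2 - (1 + D) / w)^4) * (1 - (1 - w / (1 + D)) * (1 - D) / (3 * (1 - w))) =
      ((1 - D) * w + 2 * w - (1 + D)) * ((1 - D)^2 * w^2 + (2 * w - (1 + D))^2) *
      (3 * (1 + D) * (1 - w) - (1 + D - w) * (1 - D)) / (3 * w^4) := by
  have hw : (w : ℝ) ≠ 0 := h1.ne'
  have hD : (1 + D : ℝ) ≠ 0 := by linarith
  have h3 : (1 - w : ℝ) ≠ 0 := by linarith
  field_simp
  ring

lemma L3 (D w m : ℝ) (h0 : 0 ≤ D) (h1 : (1 + D) / 2 ≤ w) (h2 : w < 1)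
    (hm : m * (1 + w) ≤ 2) :
    (7/10) * m - m^2/8 - 13/20 * w^2 ≤
      ((1 - D)^4 - (2 - (1 + D) / w)^4) * (1 - (1 - w / (1 + D)) * (1 - D) / (3 * (1 - w))) +
        m * D := by
  have hw : 0 < w := by linarith
  rw [E3form D w h0 hw h2]
  have hw4 : 0 < 3 * w^4 := by positivity
  set A := ((1 - D) * w + 2 * w - (1 + D)) * ((1 - D)^2 * w^2 + (2 * w - (1 + D))^2) *
      (3 * (1 + D) * (1 - w) - (1 + D - w) * (1 - D)) with hA
  rcases le_total D (1/4) with h | h
  · have hl := lagr D m w (w / 4) (by linarith) hm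
    have key : 0 ≤ A + 3 * w^4 * (13/20 * w^2 - 2 * (w / 4) -
        2 * (7/10 - D - w / 4 * (1 + w))^2) := by
      rcases le_total (w + 3/2 * D) 1 with h' | h'
      · exact p3a D w (2 - 2 * w - 3 * D) (4 * D) (2 * w - D - 1) (by linarith) (by linarith)
          (by linarith) (by ring) (by ring) (by ring)
      · exact p3b D w (8/3 * (1 - w)) (1 - 4 * D) (8/3 * (w + 3/2 * D - 1)) (by linarith)
          (by linarith) (by linarith) (by ring) (by ring) (by ring)
    have h5 : -(13/20 * w^2 - 2 * (w / 4) - 2 * (7/10 - D - w / 4 * (1 + w))^2) ≤ A / (3 * w^4) := by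
      rw [le_div_iff₀ hw4]
      linarith
    linarith
  · have hl := uncon D m
    have key : 0 ≤ A + 3 * w^4 * (13/20 * w^2 - 2 * (7/10 - D)^2) := by
      exact p4 D w (8/3 * (1 - w)) (8/3 * (w - (1 + D) / 2)) (4/3 * D - 1/3) (by linarith)
        (by linarith) (by linarith) (by ring) (by ring) (by ring)
    have h5 : -(13/20 * w^2 - 2 * (7/10 - D)^2) ≤ A / (3 * w^4) := by
      rw [le_div_iff₀ hw4]
      linarith
    linarith

/-- one row, all rivals at most `(1 + D) / 2`; `w` is the top rival -/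
lemma rowA (D E m w S : ℝ) (hD : 0 ≤ D) (hE : 0 ≤ E) (hm : 0 ≤ m) (hw0 : 0 ≤ w) (hS : 0 ≤ S)
    (hw : w ≤ (1 + D) / 2) (hmw : m * (1 + w) ≤ 2)
    (H1 : D < 1 → w ≤ 2/3 * D → 27 * (1 - D)^4 / (3 - D)^3 ≤ E)
    (H2 : ∀ v, D ≤ v → v < 1 → w ≤ v →
      (1 - D)^4 + (1 - v)^4 * D - 9/8 * ((max (w - D) 0)^2 + S) ≤ E) :
    (7/10) * m - m^2/8 - 13/20 * w^2 - 9/8 * S ≤ E + m * D := by
  have hw2 : 0 ≤ w^2 := sq_nonneg w
  rcases le_or_gt 1 D with h | h
  · have : m ≤ m * D := by nlinarith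
    nlinarith [sq_nonneg m]
  rcases le_or_gt w (2/3 * D) with h1 | h1
  · have e1 := H1 h h1
    rcases le_total D (7/10) with h2 | h2
    · have := L1 D hD h2
      have := uncon D m
      linarith
    · nlinarith [sq_nonneg m]
  rcases le_or_gt w D with h2 | h2
  · have e2 := H2 D le_rfl h h2
    rw [max_eq_right (by linarith : w - D ≤ 0)] at e2
    have a1 := L2b D hD h.le
    have a2 := uncon D m
    have a3 : 13/45 * D^2 ≤ 13/20 * w^2 := by nlinarith
    nlinarith
  · have hw1 : w < 1 := by linarith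
    have e2 := H2 w h2.le hw1 le_rfl
    rw [max_eq_left (by linarith : 0 ≤ w - D)] at e2
    have a1 := L2a D w m hD h2.le hw hmw
    linarith

end Pool.Agent.Helper28.M3
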